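import Pool.Agent.R515.BI.Low

/-!
Sets of positive Beer index contain the boundary of a large triangle.
-/

set_option autoImplicit false

namespace Pool.Agent.Results.MP_40f41c_co.TriangleBoundary

open MeasureTheory Set
open Pool.Agent.R515.BI

/-- The pairs of points of `S` which see each other in `S`. -/
def Seg (S : Set (ℝ × ℝ)) : Set ((ℝ × ℝ) × (ℝ × ℝ)) :=
  {p | p.1 ∈ S ∧ p.2 ∈ S ∧ segment ℝ p.1 p.2 ⊆ S}

lemma vol_T0 : volume (regionBetween (fun _ : ℝ => (0 : ℝ)) (fun x => 1 - x) (Ioo 0 1)) =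
    ENNReal.ofReal (1 / 2) := by
  rw [Measure.volume_eq_prod, volume_regionBetween_eq_integral]
  · congr 1
    rw [← integral_Ioc_eq_integral_Ioo, ← intervalIntegral.integral_of_le (by norm_num)]
    simp only [Pi.sub_apply, sub_zero]
    rw [intervalIntegral.integral_sub (by simp) (by simp)]
    simp
    norm_num
  · exact (continuous_const.continuousOn.integrableOn_Icc (a := 0) (b := 1)).mono_set
      Ioo_subset_Icc_self
  · exact ((by fun_prop : Continuous fun x : ℝ => 1 - x).continuousOn.integrableOn_Icc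
      (a := 0) (b := 1)).mono_set Ioo_subset_Icc_self
  · exact measurableSet_Ioo
  · intro x hx; linarith [hx.2]

/-- the area of a triangle -/
lemma area_ge (a b c : ℝ × ℝ) :
    ENNReal.ofReal (|dt a b c| / 2) ≤ volume (convexHull ℝ {a, b, c}) := by
  set L := Matrix.toLin (Module.Basis.finTwoProd ℝ) (Module.Basis.finTwoProd ℝ)
    !![b.1 - a.1, c.1 - a.1; b.2 - a.2, c.2 - a.2] with hL
  have hdet : LinearMap.det L = dt a b c := by
    rw [hL, LinearMap.det_toLin, Matrix.det_fin_two_of]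
    unfold dt; ring
  have h1 := Measure.addHaar_image_linearMap volume L
    (regionBetween (fun _ : ℝ => (0 : ℝ)) (fun x => 1 - x) (Ioo 0 1))
  rw [hdet, vol_T0, ← ENNReal.ofReal_mul (abs_nonneg _)] at h1
  rw [show |dt a b c| / 2 = |dt a b c| * (1 / 2) by ring, ← h1,
    ← measure_preimage_add volume (-a)]
  apply measure_mono
  intro h hh
  obtain ⟨p, hp, hpe⟩ := hh
  simp only [regionBetween, mem_ofPred_eq, mem_Ioo] at hp
  have e : h = (1 - p.1 - p.2) • a + p.1 • b + p.2 • c := by
    have e1 : h = a + L p := by rw [hpe]; simp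
    rw [e1, hL, Matrix.toLin_finTwoProd_apply]
    apply Prod.ext
    · simp; ring
    · simp; ring
  rw [e]
  have hc := convex_convexHull ℝ ({a, b, c} : Set (ℝ × ℝ))
  have ha : a ∈ convexHull ℝ ({a, b, c} : Set (ℝ × ℝ)) := subset_convexHull ℝ _ (by simp)
  have hb : b ∈ convexHull ℝ ({a, b, c} : Set (ℝ × ℝ)) := subset_convexHull ℝ _ (by simp)
  have hcc : c ∈ convexHull ℝ ({a, b, c} : Set (ℝ × ℝ)) := subset_convexHull ℝ _ (by simp)
  have h2 := hc.sum_mem (t := Finset.univ) (w := ![1 - p.1 - p.2, p.1, p.2]) (z := ![a, b, c])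
    (by
      intro i _
      fin_cases i
      · simp; linarith [hp.2.2]
      · simp; linarith [hp.1.1]
      · simp; linarith [hp.2.1])
    (by rw [Fin.sum_univ_three]; simp; ring)
    (by
      intro i _
      fin_cases i
      · exact ha
      · exact hb
      · exact hcc)
  rw [Fin.sum_univ_three] at h2
  simpa using h2

/-- **Large triangles with boundary in sets of large Beer index.** For every `ε > 0` there is
`δ > 0` such that every measurable set `S` of the plane of positive finite measure, whose Beer index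
is defined and at least `ε`, contains the three sides of a triangle of area at least `δ λ(S)`. -/
theorem result : ∀ ε : ℝ, 0 < ε → ∃ δ : ℝ, 0 < δ ∧ ∀ S : Set (ℝ × ℝ),
    NullMeasurableSet S volume → volume S ≠ 0 → volume S ≠ ⊤ →
    NullMeasurableSet (Seg S) volume →
    ENNReal.ofReal ε ≤ volume (Seg S) / (volume S) ^ 2 →
    ∃ a b c : ℝ × ℝ, ¬ Collinear ℝ {a, b, c} ∧
      segment ℝ a b ∪ segment ℝ b c ∪ segment ℝ c a ⊆ S ∧
      ENNReal.ofReal δ * volume S ≤ volume (convexHull ℝ {a, b, c}) := by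
  intro ε hε
  refine ⟨ε ^ 6 / 4000, by positivity, ?_⟩
  intro S _ hS0 hS1 hSeg hb
  obtain ⟨E, hES, hE, hEae⟩ := hSeg.exists_measurable_subset_ae_eq
  obtain ⟨lam, hlam⟩ : ∃ lam, lam = (volume S).toReal := ⟨_, rfl⟩
  have hlam0 : 0 < lam := by rw [hlam]; exact ENNReal.toReal_pos hS0 hS1
  have hvol : volume S = ENNReal.ofReal lam := by rw [hlam, ENNReal.ofReal_toReal hS1]
  set ν : Measure (ℝ × ℝ) := (volume S)⁻¹ • volume.restrict S with hν
  have hprob : IsProbabilityMeasure ν := by
    constructor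
    rw [hν, Measure.smul_apply, Measure.restrict_apply_univ, smul_eq_mul]
    exact ENNReal.inv_mul_cancel hS0 hS1
  have hinv : (volume S)⁻¹ = ENNReal.ofReal lam⁻¹ := by
    rw [hvol, ENNReal.ofReal_inv_of_pos hlam0]
  have hνE : ENNReal.ofReal ε ≤ (ν.prod ν) E := by
    refine hb.trans (le_of_eq ?_)
    have hsub : E ⊆ S ×ˢ S := fun p hp => ⟨(hES hp).1, (hES hp).2.1⟩
    rw [hν, Measure.prod_smul_left, Measure.prod_smul_right, Measure.prod_restrict,
      Measure.smul_apply, Measure.smul_apply, Measure.restrict_apply hE,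
      Set.inter_eq_left.mpr hsub, smul_eq_mul, smul_eq_mul, ← Measure.volume_eq_prod,
      measure_congr hEae, ENNReal.div_eq_inv_mul, sq, ENNReal.mul_inv (Or.inl hS0) (Or.inl hS1),
      mul_assoc]
  obtain ⟨τ, hτ⟩ : ∃ τ, τ = ε ^ 6 * lam / 1000 := ⟨_, rfl⟩
  have hτ0 : 0 < τ := by rw [hτ]; positivity
  have hκ : ∀ x y : ℝ × ℝ, ν {z | |z.1 - x.1| ≤ |y.1 - x.1| ∧ |dt x y z| ≤ τ} ≤
      ENNReal.ofReal lam⁻¹ * ENNReal.ofReal (4 * τ) := by
    intro x y
    rw [hν, Measure.smul_apply, smul_eq_mul, hinv]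
    gcongr
    exact (Measure.restrict_apply_le _ _).trans (strip x y hτ0)
  have htri : Tri S τ := by
    refine exists_tri (ν := ν) (E := E) (e := ε.toNNReal) hτ0 hE (fun x y h => (hES h).2.2) hνE hκ ?_
    rw [← ENNReal.ofReal_mul (by positivity)]
    have e1 : ((ε.toNNReal ^ 6 / 8 : NNReal) : ENNReal) = ENNReal.ofReal (ε ^ 6 / 8) := by
      rw [ENNReal.ofReal, ENNReal.coe_inj, ← NNReal.coe_inj]
      push_cast
      rw [Real.coe_toNNReal _ hε.le, Real.coe_toNNReal _ (by positivity)]
    have e2 : (20 : ENNReal) = ENNReal.ofReal 20 := by simp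
    rw [e1, e2, ← ENNReal.ofReal_mul (by norm_num), ENNReal.ofReal_lt_ofReal_iff (by positivity), hτ]
    have e3 : 20 * (lam⁻¹ * (4 * (ε ^ 6 * lam / 1000))) = ε ^ 6 * (8 / 100) := by
      field_simp
      norm_num
    rw [e3]
    have : 0 < ε ^ 6 := by positivity
    linarith
  obtain ⟨a, b, c, h1, h2, h3, h4⟩ := htri
  refine ⟨a, b, c, ?_, ?_, ?_⟩
  · intro hcol
    rw [collinear_iff_of_mem (p₀ := a) (by simp)] at hcol
    obtain ⟨v, hv⟩ := hcol
    obtain ⟨r, hr⟩ := hv b (by simp)
    obtain ⟨s, hs⟩ := hv c (by simp)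
    have : dt a b c = 0 := by
      rw [hr, hs]
      unfold dt
      simp
      ring
    rw [this, abs_zero] at h4
    linarith
  · exact union_subset (union_subset h1 h2) h3
  · refine le_trans ?_ (area_ge a b c)
    rw [hvol, ← ENNReal.ofReal_mul (by positivity)]
    apply ENNReal.ofReal_le_ofReal
    rw [hτ] at h4
    linarith

end Pool.Agent.Results.MP_40f41c_co.TriangleBoundary
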